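import Pool.Agent.Y649.DG.Main
import Pool.Agent.Y649.DG.Gen
import Pool.Agent.Y638.RF.Xor
import Pool.Agent.Y638.RF.NetGen

set_option autoImplicit false

/-! # Products `u_iᵀ M v_i` over `ZMod 2`: networks, and formulas with determinant gates -/

namespace Pool.Agent.X240.DG.XO

open Finset Pool.Agent.TH697.Form Pool.Agent.TH697.Row
open Pool.Agent.Y638.RF (Asks Net)
open Pool.Agent.Y638.RF.Xor

variable {n c w : ℕ}

theorem net_bound (hn : 32 ≤ n) (hw : 1 ≤ w) {Ω : Type} [Fintype Ω] (μ : Ω → ℝ)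
    (hμ : IsProb μ) (s : ℕ) (F : Ω → Net (Option (Fin n)) (Item n) w (2 ^ c))
    (hs : ∀ ω, (F ω).size ≤ s)
    (hF : ApproximatesOn μ (fun ω => (F ω).eval) (fun _ => True) (product n) ∨
      ApproximatesOn μ (fun ω x => !(F ω).eval x) (fun _ => True) (product n)) :
    (n : ℝ) ^ 3 ≤ 4000 * w * (n + 61 * Real.logb 2 n + 2 * c * w) * s := by
  classical
  have hw' : (1 : ℝ) ≤ w := by exact_mod_cast hw
  have hc' : (0 : ℝ) ≤ c := Nat.cast_nonneg c
  have hs0 : (0 : ℝ) ≤ s := Nat.cast_nonneg s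
  have hn' : (32 : ℝ) ≤ n := by exact_mod_cast hn
  obtain ⟨hl, hl1⟩ := Pool.Agent.TH457.Ary.OuMv.logb_n hn
  obtain ⟨l, hl'⟩ : ∃ l, l = Real.logb 2 (n : ℝ) := ⟨_, rfl⟩
  rw [← hl'] at hl hl1 ⊢
  have hcw : 0 ≤ 2 * (c : ℝ) * w := by positivity
  by_cases hsn : n ^ 3 ≤ s
  · have h1 : (n : ℝ) ^ 3 ≤ s := by exact_mod_cast hsn
    have h3 : (1 : ℝ) ≤ 4000 * w * (n + 61 * l + 2 * c * w) := by nlinarith
    exact h1.trans (le_mul_of_one_le_left hs0 h3)
  have hM : 4 * n ^ 2 * (2 * s + 1) + 2 + s ≤ n ^ 6 := by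
    have h1 : s < n ^ 3 := by omega
    have h2 : 4 * n ^ 2 * (2 * s + 1) ≤ 4 * n ^ 2 * (2 * n ^ 3) := Nat.mul_le_mul_left _ (by omega)
    have h3 : 4 * n ^ 2 * (2 * n ^ 3) = 8 * n ^ 5 := by ring
    have h4 : n ^ 3 ≤ n ^ 5 := Nat.pow_le_pow_right (by omega) (by norm_num)
    have h5 : 32 * n ^ 5 ≤ n ^ 6 := by
      calc 32 * n ^ 5 ≤ n * n ^ 5 := Nat.mul_le_mul_right _ hn
        _ = n ^ 6 := by ring
    have h6 : 1 ≤ n ^ 5 := Nat.one_le_pow _ _ (by omega)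
    omega
  have h := Pool.Agent.Y638.RF.net_bound_le μ hμ F (fun _ => True) (product n) hF s hs
    Nat.one_le_two_pow hw (n ^ 2) (n ^ 6) hM 0 (by norm_num)
    ((univ : Finset (Fin n)).map Function.Embedding.some) (T := Fin n × Fin n) (by
      intro a ha
      rw [mem_map] at ha
      obtain ⟨i, -, rfl⟩ := ha
      exact asks i) ((n : ℝ) ^ 2) (by nlinarith) (by
      simp only [Fintype.card_prod, Fintype.card_fin]
      push_cast
      apply le_of_eq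
      ring)
  rw [card_map, card_univ, Fintype.card_fin, Real.sqrt_sq (by positivity), Nat.cast_pow n 6,
    Real.logb_pow, ← hl'] at h
  push_cast at h
  have e : Real.logb 2 ((2 : ℝ) ^ c) = c := by
    rw [Real.logb_pow, Real.logb_self_eq_one (by norm_num), mul_one]
  rw [e] at h
  have hl5 : 5 ≤ l := by
    have h11 : ((2 : ℝ)) ^ 5 ≤ n := by linarith
    have h12 := Real.logb_le_logb_of_le (by norm_num : (1 : ℝ) < 2) (by positivity) h11
    rw [Real.logb_pow, Real.logb_self_eq_one (by norm_num)] at h12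
    rw [hl']
    norm_num at h12
    exact h12
  have h2 : (n : ℝ) + (3 + 10 * (6 * l) + 2 * ((w : ℝ) - 1) * c) ≤ n + 61 * l + 2 * c * w := by
    nlinarith
  calc (n : ℝ) ^ 3 = n * n ^ 2 := by ring
    _ ≤ 4000 * w * (n + (3 + 10 * (6 * l) + 2 * ((w : ℝ) - 1) * c)) * s := h
    _ ≤ 4000 * w * (n + 61 * l + 2 * c * w) * s :=
        mul_le_mul_of_nonneg_right (mul_le_mul_of_nonneg_left h2 (by linarith)) hs0

open Pool.Agent.Y649.DG in
theorem det_bound (hn : 32 ≤ n) (hw : 1 ≤ w) {Ω : Type} [Fintype Ω] (μ : Ω → ℝ)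
    (hμ : IsProb μ) (s : ℕ) (F : Ω → Fml (Option (Fin n)) (Item n) w (2 ^ c))
    (hs : ∀ ω, (F ω).size ≤ s)
    (hF : ApproximatesOn μ (fun ω => (F ω).accepts) (fun _ => True) (product n)) :
    (n : ℝ) ^ 4 ≤ 360000 * w ^ 2 * (31 * Real.logb 2 n + c * w) * s ^ 2 := by
  classical
  have hw' : (1 : ℝ) ≤ w := by exact_mod_cast hw
  have hc' : (0 : ℝ) ≤ c := Nat.cast_nonneg c
  have hs0 : (0 : ℝ) ≤ s := Nat.cast_nonneg s
  have hn' : (32 : ℝ) ≤ n := by exact_mod_cast hn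
  obtain ⟨hl, hl1⟩ := Pool.Agent.TH457.Ary.OuMv.logb_n hn
  obtain ⟨l, hl'⟩ : ∃ l, l = Real.logb 2 (n : ℝ) := ⟨_, rfl⟩
  rw [← hl'] at hl hl1 ⊢
  have hcw : 0 ≤ (c : ℝ) * w := by positivity
  by_cases hsn : n ^ 3 ≤ s
  · have h1 : (n : ℝ) ^ 3 ≤ s := by exact_mod_cast hsn
    have h2 : (n : ℝ) ^ 4 ≤ (s : ℝ) ^ 2 := by
      calc (n : ℝ) ^ 4 ≤ n ^ 6 := pow_le_pow_right₀ (by linarith) (by norm_num)
        _ = ((n : ℝ) ^ 3) ^ 2 := by ring
        _ ≤ (s : ℝ) ^ 2 := pow_le_pow_left₀ (by positivity) h1 2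
    have h3 : (1 : ℝ) ≤ w ^ 2 := one_le_pow₀ hw'
    have h4 : (1 : ℝ) ≤ 360000 * w ^ 2 * (31 * l + c * w) := by nlinarith
    exact h2.trans (le_mul_of_one_le_left (by positivity) h4)
  have hM : 4 * n ^ 2 * (5 * s + 1) + 2 + s ≤ n ^ 6 := by
    have h1 : s < n ^ 3 := by omega
    have h2 : 4 * n ^ 2 * (5 * s + 1) ≤ 4 * n ^ 2 * (5 * n ^ 3) := Nat.mul_le_mul_left _ (by omega)
    have h3 : 4 * n ^ 2 * (5 * n ^ 3) = 20 * n ^ 5 := by ring
    have h4 : n ^ 3 ≤ n ^ 5 := Nat.pow_le_pow_right (by omega) (by norm_num)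
    have h5 : 32 * n ^ 5 ≤ n ^ 6 := by
      calc 32 * n ^ 5 ≤ n * n ^ 5 := Nat.mul_le_mul_right _ hn
        _ = n ^ 6 := by ring
    have h6 : 1 ≤ n ^ 5 := Nat.one_le_pow _ _ (by omega)
    omega
  have h := bound_sq bound μ hμ F (fun _ => True) (product n) hF s hs
    Nat.one_le_two_pow hw (n ^ 2) (n ^ 6) hM 0 (by norm_num)
    ((univ : Finset (Fin n)).map Function.Embedding.some) (T := Fin n × Fin n) (by
      intro a ha
      rw [mem_map] at ha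
      obtain ⟨i, -, rfl⟩ := ha
      exact asks i) ((n : ℝ) ^ 2) (by nlinarith) (by
      simp only [Fintype.card_prod, Fintype.card_fin]
      push_cast
      apply le_of_eq
      ring) (31 * l + c * w) (by
      rw [Nat.cast_pow n 6, Real.logb_pow, ← hl']
      push_cast
      rw [Real.logb_pow, Real.logb_self_eq_one (by norm_num), mul_one]
      nlinarith)
  rw [card_map, card_univ, Fintype.card_fin] at h
  calc (n : ℝ) ^ 4 = (n : ℝ) ^ 2 * n ^ 2 := by ring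
    _ ≤ 360000 * w ^ 2 * (31 * l + c * w) * s ^ 2 := h

end Pool.Agent.X240.DG.XO
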