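import Pool.Agent.Y649.DG.Main
import Pool.Agent.Y649.DG.Gen
import Pool.Agent.Y638.RF.MinPlus
import Pool.Agent.X240.Gen.Log

set_option autoImplicit false

/-! # Shortcuts and formulas with determinant gates -/

namespace Pool.Agent.X240.DG.AP

open Finset Pool.Agent.TH697.Form Pool.Agent.TH697.Row Pool.Agent.TH697.Form.MinPlus
open Pool.Agent.TH457.Ary.MinPlus Pool.Agent.Y638.RF.MinPlus
open Pool.Agent.Y638.RF (Asks)
open Pool.Agent.Y649.DG

variable {n c w : ℕ}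

theorem bound_ap (hn : 256 ≤ n) (hc : 1 ≤ c) (hw : 1 ≤ w) {Ω : Type} [Fintype Ω] (μ : Ω → ℝ)
    (hμ : IsProb μ) (s : ℕ) (F : Ω → Fml (Option (Fin n)) (Item n) w (n ^ c))
    (hs : ∀ ω, (F ω).size ≤ s)
    (hF : ApproximatesOn μ (fun ω => (F ω).accepts) (InRange n (n + 1)) (shortcut n)) :
    (n : ℝ) ^ 4 ≤ 20000000 * c * w ^ 3 * s ^ 2 := by
  classical
  have hw' : (1 : ℝ) ≤ w := by exact_mod_cast hw
  have hc' : (1 : ℝ) ≤ c := by exact_mod_cast hc
  have hn' : (256 : ℝ) ≤ n := by exact_mod_cast hn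
  have hs0 : (0 : ℝ) ≤ s := Nat.cast_nonneg s
  obtain ⟨l, hl⟩ : ∃ l : ℝ, l = Real.logb 2 n := ⟨_, rfl⟩
  obtain ⟨b, hb⟩ : ∃ b, b = Nat.log 2 n := ⟨_, rfl⟩
  have hb8 : 8 ≤ b := by
    have := Nat.log_mono_right (b := 2) hn
    rw [hb]
    rwa [show Nat.log 2 256 = 8 by decide +kernel] at this
  have hpow : 2 ^ b ≤ n := by
    rw [hb]
    exact Nat.pow_log_le_self 2 (by omega)
  have hpow2 : n < 2 ^ (b + 1) := by
    have := Nat.lt_pow_succ_log_self (b := 2) (by norm_num) n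
    rw [hb]
    exact this
  have hb' : (8 : ℝ) ≤ b := by exact_mod_cast hb8
  have hl1 : l ≤ 5 / 4 * b := by
    have h9 := logb_q (c := 1) (by omega) (by omega) hpow2
    rw [hl]
    simpa using h9
  have hbl : (b : ℝ) ≤ l := by
    have h1 : ((2 : ℝ) ^ b) ≤ n := by exact_mod_cast hpow
    have h2 := Real.logb_le_logb_of_le (by norm_num : (1 : ℝ) < 2) (by positivity) h1
    rw [Real.logb_pow, Real.logb_self_eq_one (by norm_num), mul_one] at h2
    rw [hl]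
    exact h2
  have hl8 : 8 ≤ l := by linarith
  have hw3 : (1 : ℝ) ≤ w ^ 3 := one_le_pow₀ hw'
  have hcw : (1 : ℝ) ≤ c * w ^ 3 := one_le_mul_of_one_le_of_one_le hc' hw3
  by_cases hsn : n ^ 4 ≤ s
  · have h1 : (n : ℝ) ^ 4 ≤ s := by exact_mod_cast hsn
    have h2 : (1 : ℝ) ≤ (n : ℝ) ^ 4 := one_le_pow₀ (by linarith)
    have h3 : (s : ℝ) ≤ s ^ 2 := by nlinarith
    have h4 : (s : ℝ) ^ 2 ≤ 20000000 * (c * w ^ 3) * s ^ 2 :=
      le_mul_of_one_le_left (by positivity) (by linarith)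
    calc (n : ℝ) ^ 4 ≤ s := h1
      _ ≤ s ^ 2 := h3
      _ ≤ 20000000 * (c * w ^ 3) * s ^ 2 := h4
      _ = 20000000 * c * w ^ 3 * s ^ 2 := by ring
  have hM : 4 * n ^ 3 * (5 * s + 1) + 2 + s ≤ n ^ 8 := by
    have h1 : s < n ^ 4 := by omega
    have h2 : 4 * n ^ 3 * (5 * s + 1) ≤ 4 * n ^ 3 * (5 * n ^ 4) := Nat.mul_le_mul_left _ (by omega)
    have h3 : 4 * n ^ 3 * (5 * n ^ 4) = 20 * n ^ 7 := by ring
    have h4 : n ^ 4 ≤ n ^ 7 := Nat.pow_le_pow_right (by omega) (by norm_num)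
    have h5 : 256 * n ^ 7 ≤ n ^ 8 := by
      calc 256 * n ^ 7 ≤ n * n ^ 7 := Nat.mul_le_mul_right _ hn
        _ = n ^ 8 := by ring
    have h6 : 1 ≤ n ^ 7 := Nat.one_le_pow _ _ (by omega)
    omega
  have h := bound_sq bound μ hμ F (InRange n (2 ^ b + 1)) (shortcut n)
    (approx_mono μ _ _ _ _ (fun x hx => inRange_mono (by omega) x hx) hF) s hs
    (Nat.one_le_pow _ _ (by omega)) hw (n ^ 3) (n ^ 8) hM 0 (by norm_num)
    ((univ : Finset (Fin n)).map Function.Embedding.some) (T := Fin n × Fin n × Fin b) (by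
      intro a ha
      rw [mem_map] at ha
      obtain ⟨i, -, rfl⟩ := ha
      exact asks hpow i) ((n : ℝ) ^ 2 * b) (by nlinarith) (by
      simp only [Fintype.card_prod, Fintype.card_fin]
      push_cast
      apply le_of_eq
      ring) (42 * c * w * l) (by
      rw [Nat.cast_pow n 8, Nat.cast_pow n c, Real.logb_pow, Real.logb_pow, ← hl]
      push_cast
      have h2 : 1 + 5 * (8 * l) ≤ 42 * l := by linarith
      have h3 : 0 ≤ ((w : ℝ) - 1) * (c * l) := by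
        apply mul_nonneg (by linarith)
        positivity
      have h4 : 42 * l ≤ 42 * (c * l) := by nlinarith
      nlinarith)
  rw [card_map, card_univ, Fintype.card_fin] at h
  have e1 : (n : ℝ) ^ 2 * (n ^ 2 * b) = n ^ 4 * b := by ring
  have e2 : 360000 * (w : ℝ) ^ 2 * (42 * c * w * l) * s ^ 2 = 15120000 * (c * w ^ 3 * s ^ 2) * l := by
    ring
  rw [e1, e2] at h
  have h0 : 0 ≤ (c : ℝ) * w ^ 3 * s ^ 2 := by positivity
  have h5 : 15120000 * ((c : ℝ) * w ^ 3 * s ^ 2) * l ≤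
      15120000 * (c * w ^ 3 * s ^ 2) * (5 / 4 * b) :=
    mul_le_mul_of_nonneg_left hl1 (by positivity)
  have h6 : (n : ℝ) ^ 4 * b ≤ (18900000 * (c * w ^ 3 * s ^ 2)) * b := by
    calc (n : ℝ) ^ 4 * b ≤ 15120000 * (c * w ^ 3 * s ^ 2) * (5 / 4 * b) := h.trans h5
      _ = (18900000 * (c * w ^ 3 * s ^ 2)) * b := by ring
  have h7 := le_of_mul_le_mul_right h6 (by linarith)
  have e3 : 20000000 * (c : ℝ) * w ^ 3 * s ^ 2 = 20000000 * (c * w ^ 3 * s ^ 2) := by ring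
  rw [e3]
  linarith

end Pool.Agent.X240.DG.AP
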